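import Pool.Agent.H531.LO.Asm3

set_option autoImplicit false

/-!
# Residues and gaps of consecutive twin primes, and of consecutive places of all systems, in the random sieve model

For every prime `q` a residue class `a q` modulo `q` is drawn uniformly and independently. The random primes are the
integers `v ≥ 3` which are, for all primes `q ≤ z v`, not in the class `0` modulo `q` if `q ≤ (log v) ^ c`, and not in the
class `a q` modulo `q` if `q > (log v) ^ c`. This is the model of Banks, Ford and Tao (*Large prime gaps and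
probabilistic models*) in which the small primes sieve out the class `0` as they do for the true primes (a hybrid which goes
back to Granville). The sieving limit `z` is any nondecreasing function for which `∏_{q ≤ z v} (1 - 1 / q)` is asymptotic
to `1 / log v`; the choice `zBFT` of Banks, Ford and Tao is one of them. The exponent `c` is any number larger than `1`.

A twin pair is a pair `p, p + 2` of random primes, ordered by the first members; `pi2 A x a`, `pi2c A x a b` and `delta2` are
the quantities `π₂(x; 4; a)`, `π₂(x; 4; a|b)`, `δ₂(x; 4; a|b)` of the problem for the set `A` in place of the primes.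

More generally let `F` be a system, that is, a nonempty finite set of irreducible nonconstant integer polynomials with
positive leading coefficients without a fixed prime divisor (for instance `{X, X + 2}`, `{X}`, `{X, X + 2, X + 6}`,
`{X ^ 2 + 1}`). A place of `F` is an `m ≥ 1` for which all the `|f m|`, `f ∈ F`, are random primes; `place A F n` is the `n`-th
place, `n = 0, 1, …`. The classes modulo `q` in which places may lie are the `a` for which `∏ f a` is coprime to `q`
(`allowed F q`). The length `unit C F x = ∏ (deg f · log x) / C F`, with the true constant `C F` of Bateman and Horn, is the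
mean distance between the places near `x`.

The theorem: almost surely there are infinitely many twin pairs of random primes and `δ₂(x; 4; a|b) → 1 / 2` for all
`a, b ∈ {1, 3}`, which is the statement asked for in the problem; and, for ALL systems `F` and ALL moduli `q ≥ 1` at once,
the residues modulo `q` of any number `r + 1` of consecutive places are asymptotically independent and uniformly
distributed in the allowed classes, and independent of the `r` gaps, which, divided by the unit, are asymptotically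
independent exponential variables with mean `1`.
-/

open MeasureTheory ProbabilityTheory Filter Topology Polynomial

namespace Pool.Agent.Results.MP_74f661_nt.ConsecutiveResiduesRandomSieve

/-- `V m = ∏ (1 - 1 / q)` over the primes `q ≤ m` -/
noncomputable def V (m : ℕ) : ℝ := ∏ q ∈ (Finset.range (m + 1)).filter Nat.Prime, (1 - 1 / (q : ℝ))

/-- the classes `a q` are independent, and `a q` is uniform on `0, …, q - 1` for every prime `q` -/
structure Model {Ω : Type} [MeasurableSpace Ω] (P : Measure Ω) (a : ℕ → Ω → ℕ) : Prop where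
  measurable : ∀ q, Measurable (a q)
  independent : iIndepFun a P
  uniform : ∀ q, q.Prime → ∀ r < q, P.real {ω | a q ω = r} = 1 / q

/-- the sieving limit of Banks, Ford and Tao: the largest `m` with `∏_{q ≤ m} (1 - 1 / q)⁻¹ ≤ log n` -/
noncomputable def zBFT (n : ℕ) : ℕ := sSup {m : ℕ | (V m)⁻¹ ≤ Real.log n}

/-- the admissible sieving limits: the density of the random primes near `v` is asymptotic to `1 / log v` -/
def Limit (z : ℕ → ℕ) : Prop := Monotone z ∧ Tendsto (fun v => V (z v) * Real.log v) atTop (𝓝 1)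

open Classical in
/-- the set of the random primes of a sample -/
def R {Ω : Type} (z : ℕ → ℕ) (c : ℝ) (a : ℕ → Ω → ℕ) (ω : Ω) : Set ℕ :=
  {v | 3 ≤ v ∧ ∀ q ≤ z v, q.Prime → v % q ≠ if (q : ℝ) ≤ Real.log v ^ c then 0 else a q ω}

/-- `ω_F(p)`: the number of the `n` modulo `p` with `∏ f n = 0` modulo `p` -/
def omega (F : Finset ℤ[X]) (p : ℕ) : ℕ :=
  ((Finset.range p).filter fun n : ℕ => (p : ℤ) ∣ ∏ f ∈ F, f.eval (n : ℤ)).card

/-- the partial products of `C_F` -/
noncomputable def partialC (F : Finset ℤ[X]) (x : ℕ) : ℝ :=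
  ∏ p ∈ (Finset.range (x + 1)).filter Nat.Prime, (1 - (omega F p : ℝ) / p) / (1 - 1 / (p : ℝ)) ^ F.card

/-- the systems: finitely many irreducible nonconstant polynomials with positive leading coefficients, without a fixed
prime divisor -/
def System (F : Finset ℤ[X]) : Prop :=
  F.Nonempty ∧ (∀ f ∈ F, Irreducible f ∧ 0 < f.natDegree ∧ 0 < f.leadingCoeff) ∧ ∀ p : ℕ, p.Prime → omega F p < p

/-- the mean distance of the places near `x` -/
noncomputable def unit (C : Finset ℤ[X] → ℝ) (F : Finset ℤ[X]) (x : ℕ) : ℝ :=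
  (∏ f ∈ F, (f.natDegree : ℝ) * Real.log x) / C F

/-- the places of `F` -/
def Places (A : Set ℕ) (F : Finset ℤ[X]) : Set ℕ := {m | 1 ≤ m ∧ ∀ f ∈ F, (f.eval (m : ℤ)).natAbs ∈ A}

/-- the `n`-th place of `F`, `n = 0, 1, …` -/
noncomputable def place (A : Set ℕ) (F : Finset ℤ[X]) (n : ℕ) : ℕ := Nat.nth (fun m => m ∈ Places A F) n

/-- the classes `a` modulo `q` for which `∏ f a` is coprime to `q` -/
def allowed (F : Finset ℤ[X]) (q : ℕ) : Finset ℕ :=
  (Finset.range q).filter fun a : ℕ => Int.gcd (∏ f ∈ F, f.eval (a : ℤ)) q = 1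

/-- the first members of the pairs `p, p + 2` of elements of `A` -/
def Twins (A : Set ℕ) : Set ℕ := {p | p ∈ A ∧ p + 2 ∈ A}

/-- the first member of the `n`-th pair, `n = 0, 1, …` -/
noncomputable def twin (A : Set ℕ) (n : ℕ) : ℕ := Nat.nth (fun p => p ∈ Twins A) n

/-- `π₂(x; 4; a)` -/
noncomputable def pi2 (A : Set ℕ) (x : ℝ) (a : ℕ) : ℕ := {n : ℕ | (twin A n : ℝ) ≤ x ∧ twin A n % 4 = a}.ncard

/-- `π₂(x; 4; a|b)` -/
noncomputable def pi2c (A : Set ℕ) (x : ℝ) (a b : ℕ) : ℕ :=
  {n : ℕ | (twin A n : ℝ) ≤ x ∧ twin A n % 4 = a ∧ twin A (n + 1) % 4 = b}.ncard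

/-- `δ₂(x; 4; a|b)` -/
noncomputable def delta2 (A : Set ℕ) (x : ℝ) (a b : ℕ) : ℝ := (pi2c A x a b : ℝ) / pi2 A x a

/-- the statement of the problem for the set `A` in place of the primes -/
def TwinStatement (A : Set ℕ) : Prop :=
  (Twins A).Infinite ∧ ∀ a ∈ ({1, 3} : Set ℕ), ∀ b ∈ ({1, 3} : Set ℕ),
    Tendsto (fun x : ℝ => delta2 A x a b) atTop (𝓝 (1 / 2))

/-- the general statement for the set `A` and the system `F` -/
def SystemStatement (C : Finset ℤ[X] → ℝ) (A : Set ℕ) (F : Finset ℤ[X]) : Prop :=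
  (Places A F).Infinite ∧ ∀ q : ℕ, 1 ≤ q → (∀ᶠ n in atTop, place A F n % q ∈ allowed F q) ∧
    ∀ (r : ℕ) (β : Fin (r + 1) → ℕ), (∀ j, β j ∈ allowed F q) →
      Tendsto (fun x : ℕ => ({n : ℕ | place A F n ≤ x ∧ ∀ j : Fin (r + 1), place A F (n + j) % q = β j}.ncard : ℝ) /
        {n : ℕ | place A F n ≤ x}.ncard) atTop (𝓝 ((1 / ((allowed F q).card : ℝ)) ^ (r + 1))) ∧
      ∀ t : Fin r → ℝ, (∀ j, 0 < t j) →
        Tendsto (fun x : ℕ => ({n : ℕ | place A F n ≤ x ∧ (∀ j : Fin (r + 1), place A F (n + j) % q = β j) ∧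
          ∀ j : Fin r, (place A F (n + j + 1) : ℝ) - place A F (n + j) ≤ t j * unit C F x}.ncard : ℝ) /
            {n : ℕ | place A F n ≤ x}.ncard) atTop
          (𝓝 ((1 / ((allowed F q).card : ℝ)) ^ (r + 1) * ∏ j, (1 - Real.exp (-t j))))

section aux

open Pool.Agent.H531.LO

theorem allowed_eq (F : Finset ℤ[X]) (q : ℕ) : allowed F q = AlF F q := by
  classical
  ext a
  rw [mem_AlF]
  unfold allowed Alw
  rw [Finset.mem_filter, Finset.mem_range]

theorem ncard_le {A : Set ℕ} (hA : A.Infinite) (P : ℕ → Prop) [DecidablePred P] (y : ℕ) :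
    {n : ℕ | el A n ≤ y ∧ P n}.ncard = ((Finset.range (ix A (y + 1))).filter P).card := by
  classical
  rw [← Set.ncard_coe_finset]
  congr 1
  ext n
  rw [Finset.mem_coe, Finset.mem_filter, Finset.mem_range, ← el_le_iff hA]
  rfl

theorem system_of (A : Set ℕ) (F : Finset ℤ[X]) (C : Finset ℤ[X] → ℝ)
    (h : ∀ q : ℕ, 0 < q → ∃ U : ℕ → ℝ, Data (PlA A F) q (AlF F q) U ∧
      Tendsto (fun y : ℕ => Pool.Agent.H559.PV.un F (C F) y / U (y / q)) atTop (𝓝 (q / (AlF F q).card)) ∧
      Tendsto (fun y : ℕ => (ix (PlA A F) (y + 1) : ℝ) * Pool.Agent.H559.PV.un F (C F) y / y) atTop (𝓝 1)) :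
    SystemStatement C A F := by
  classical
  obtain ⟨U1, D1, -, -⟩ := h 1 one_pos
  refine ⟨D1.hA, fun q hq => ?_⟩
  obtain ⟨U, D, hu, hT⟩ := h q hq
  have hN : ∀ y : ℕ, {n : ℕ | place A F n ≤ y}.ncard = ix (PlA A F) (y + 1) := by
    intro y
    have h1 := ncard_le D.hA (fun _ => True) y
    rw [Finset.filter_true, Finset.card_range] at h1
    rw [← h1]
    congr 1
    ext n
    simp only [Set.mem_ofPred_eq, and_true]
    rfl
  rw [allowed_eq]
  refine ⟨?_, fun r β hβ => ⟨?_, fun t ht => ?_⟩⟩
  · obtain ⟨M0, hM0⟩ := D.hM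
    have h1 : Tendsto (el (PlA A F)) atTop atTop := (el_mono D.hA).tendsto_atTop
    filter_upwards [h1.eventually_ge_atTop M0] with n hn
    exact hM0 _ (el_mem D.hA n) hn
  · have key := law_res (r := r) D hu hT β hβ
    refine key.congr fun y => ?_
    rw [hN]
    congr 2
    unfold SR
    rw [← ncard_le D.hA]
    rfl
  · have key := law_gap (r := r) D hu hT β hβ t ht
    refine key.congr fun y => ?_
    rw [hN]
    congr 2
    unfold SG
    rw [← ncard_le D.hA]
    rfl

/-- the system of the twin pairs -/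
noncomputable def F2 : Finset ℤ[X] := {X, X + C 2}

theorem F2_ne : (X : ℤ[X]) ≠ X + C 2 := by
  intro h
  have := congrArg (fun f : ℤ[X] => f.eval 0) h
  simp at this

theorem F2_prod (n : ℕ) : ∏ f ∈ F2, f.eval (n : ℤ) = n * (n + 2) := by
  classical
  unfold F2
  rw [Finset.prod_pair F2_ne]
  simp

theorem F2_sys : System F2 := by
  classical
  refine ⟨⟨X, by simp [F2]⟩, ?_, ?_⟩
  · intro f hf
    unfold F2 at hf
    rw [Finset.mem_insert, Finset.mem_singleton] at hf
    rcases hf with rfl | rfl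
    · refine ⟨irreducible_X, by simp, by simp⟩
    · have e : (X + C 2 : ℤ[X]) = X - C (-2) := by rw [map_neg, sub_neg_eq_add]
      refine ⟨by rw [e]; exact irreducible_X_sub_C _, ?_, ?_⟩
      · rw [natDegree_X_add_C]
        norm_num
      · rw [leadingCoeff_X_add_C]
        norm_num
  · intro p hp
    unfold omega
    have key : ∃ n ∈ Finset.range p, ¬ (p : ℤ) ∣ ∏ f ∈ F2, f.eval (n : ℤ) := by
      by_cases h3 : p = 3
      · refine ⟨2, by rw [h3]; simp, ?_⟩
        rw [F2_prod, h3]
        norm_num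
      · refine ⟨1, Finset.mem_range.2 hp.one_lt, ?_⟩
        rw [F2_prod]
        intro h
        have h1 : (p : ℤ) ∣ ((3 : ℕ) : ℤ) := by
          have e : ((1 : ℕ) : ℤ) * (((1 : ℕ) : ℤ) + 2) = ((3 : ℕ) : ℤ) := by norm_num
          rwa [e] at h
        have h2 : p ∣ 3 := Int.natCast_dvd_natCast.1 h1
        rcases (Nat.dvd_prime Nat.prime_three).1 h2 with h4 | h4
        · exact hp.one_lt.ne' h4
        · exact h3 h4
    obtain ⟨n, hn1, hn2⟩ := key
    have h1 : (Finset.range p).filter (fun n : ℕ => (p : ℤ) ∣ ∏ f ∈ F2, f.eval (n : ℤ)) ⊂ Finset.range p := by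
      rw [Finset.filter_ssubset]
      exact ⟨n, hn1, hn2⟩
    have h2 := Finset.card_lt_card h1
    rwa [Finset.card_range] at h2

theorem F2_allowed : allowed F2 4 = {1, 3} := by
  classical
  ext a
  unfold allowed
  rw [Finset.mem_filter, Finset.mem_range, Finset.mem_insert, Finset.mem_singleton, F2_prod]
  constructor
  · rintro ⟨h1, h2⟩
    interval_cases a
    · norm_num at h2
    · exact Or.inl rfl
    · norm_num at h2
    · exact Or.inr rfl
  · rintro (rfl | rfl)
    · exact ⟨by norm_num, by norm_num⟩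
    · exact ⟨by norm_num, by norm_num⟩

theorem F2_places (A : Set ℕ) (hA : ∀ a ∈ A, 3 ≤ a) : Places A F2 = Twins A := by
  classical
  ext m
  simp only [Places, Twins, Set.mem_ofPred_eq, F2, Finset.mem_insert, Finset.mem_singleton, forall_eq_or_imp, forall_eq]
  have e1 : ((X : ℤ[X]).eval (m : ℤ)).natAbs = m := by simp
  have e2 : ((X + C 2 : ℤ[X]).eval (m : ℤ)).natAbs = m + 2 := by
    simp only [eval_add, eval_X, eval_C]
    omega
  rw [e1, e2]
  constructor
  · rintro ⟨-, h⟩
    exact h
  · intro h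
    exact ⟨by have := hA m h.1; omega, h⟩

theorem twin_of (A : Set ℕ) (hA : ∀ a ∈ A, 3 ≤ a) (C : Finset ℤ[X] → ℝ) (h : SystemStatement C A F2) :
    TwinStatement A := by
  classical
  obtain ⟨h1, h2⟩ := h
  obtain ⟨-, h3⟩ := h2 4 (by norm_num)
  have e : Places A F2 = Twins A := F2_places A hA
  have ep : ∀ n, place A F2 n = twin A n := by
    intro n
    unfold place twin
    rw [e]
  rw [e] at h1
  refine ⟨h1, ?_⟩
  have hinf : (Twins A).Infinite := h1
  have hcard : ((allowed F2 4).card : ℝ) = 2 := by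
    rw [F2_allowed]
    norm_num
  intro a ha b hb
  have ha' : a ∈ allowed F2 4 := by
    rw [F2_allowed]
    simpa using ha
  have hb' : b ∈ allowed F2 4 := by
    rw [F2_allowed]
    simpa using hb
  have k1 := (h3 0 (fun _ => a) (fun _ => ha')).1
  have k2 := (h3 1 ![a, b] (by
    intro j
    fin_cases j
    · exact ha'
    · exact hb')).1
  rw [hcard] at k1 k2
  have k3 := k2.div k1 (by norm_num)
  have k4 := k3.comp (tendsto_nat_floor_atTop (α := ℝ))
  have ec : ((1 : ℝ) / 2) ^ (1 + 1) / (1 / 2) ^ (0 + 1) = 1 / 2 := by norm_num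
  rw [ec] at k4
  refine k4.congr' ?_
  have hpos : ∀ᶠ x : ℕ in atTop, (0 : ℝ) < ({n : ℕ | place A F2 n ≤ x}.ncard : ℝ) := by
    have h5 : Tendsto (fun x : ℕ => ({n : ℕ | place A F2 n ≤ x ∧ ∀ j : Fin (0 + 1),
        place A F2 (n + j) % 4 = a}.ncard : ℝ) / {n : ℕ | place A F2 n ≤ x}.ncard) atTop (𝓝 ((1 / 2) ^ (0 + 1))) := k1
    filter_upwards [h5.eventually_const_lt (by norm_num : (0 : ℝ) < (1 / 2) ^ (0 + 1))] with x hx
    by_contra hcon
    have h6 : ({n : ℕ | place A F2 n ≤ x}.ncard : ℝ) = 0 := le_antisymm (not_lt.1 hcon) (Nat.cast_nonneg _)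
    rw [h6, div_zero] at hx
    exact lt_irrefl _ hx
  filter_upwards [(tendsto_nat_floor_atTop (α := ℝ)).eventually hpos, eventually_ge_atTop 0] with x hx hx0
  simp only [Pi.div_apply, Function.comp_apply]
  unfold delta2 pi2c pi2
  have e1 : {n : ℕ | place A F2 n ≤ ⌊x⌋₊ ∧ ∀ j : Fin (1 + 1), place A F2 (n + j) % 4 = ![a, b] j} =
      {n : ℕ | (twin A n : ℝ) ≤ x ∧ twin A n % 4 = a ∧ twin A (n + 1) % 4 = b} := by
    ext n
    simp only [Set.mem_ofPred_eq, ep, Nat.le_floor_iff hx0]
    refine and_congr_right fun _ => ?_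
    constructor
    · intro h
      exact ⟨h 0, h 1⟩
    · rintro ⟨h5, h6⟩ j
      fin_cases j
      · exact h5
      · exact h6
  have e2 : {n : ℕ | place A F2 n ≤ ⌊x⌋₊ ∧ ∀ j : Fin (0 + 1), place A F2 (n + j) % 4 = a} =
      {n : ℕ | (twin A n : ℝ) ≤ x ∧ twin A n % 4 = a} := by
    ext n
    simp only [Set.mem_ofPred_eq, ep, Nat.le_floor_iff hx0]
    refine and_congr_right fun _ => ?_
    constructor
    · intro h
      exact h 0
    · intro h5 j
      fin_cases j
      exact h5
  rw [e1, e2]
  rw [div_div_div_cancel_right₀ hx.ne']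

end aux

/-- **The theorem.** -/
theorem result :
    (∃ (Ω : Type) (_ : MeasurableSpace Ω) (P : Measure Ω) (a : ℕ → Ω → ℕ), Model P a) ∧ Limit zBFT ∧
    ∃ C : Finset ℤ[X] → ℝ, (∀ F, System F → Tendsto (partialC F) atTop (𝓝 (C F)) ∧ 0 < C F) ∧
      ∀ z : ℕ → ℕ, Limit z → ∀ c : ℝ, 1 < c →
        ∀ (Ω : Type) [MeasurableSpace Ω] (P : Measure Ω) (a : ℕ → Ω → ℕ), Model P a →
          ∀ᵐ ω ∂P, TwinStatement (R z c a ω) ∧ ∀ F, System F → SystemStatement C (R z c a ω) F := by
  classical
  have hGP : ∀ F, System F → ∀ f ∈ F, Pool.Agent.H559.PV.GP f := fun F hF f hf =>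
    ⟨(hF.2.1 f hf).1, (hF.2.1 f hf).2.1, (hF.2.1 f hf).2.2⟩
  have hsys : ∀ F, System F → Pool.Agent.H559.HY.Sys F := fun F hF => Pool.Agent.H559.PV.sys_of F (hGP F hF)
  refine ⟨?_, ⟨Pool.Agent.T2H32.BF.z0_mono, Pool.Agent.T2H32.BF.z0_lim⟩, ?_⟩
  · obtain ⟨Ω, i, P, a, h⟩ := Pool.Agent.T2H32.BF.exists_model
    exact ⟨Ω, i, P, a, h.measurable, h.independent, h.uniform⟩
  · refine ⟨fun F => if h : System F then (Pool.Agent.H559.PV.CF_conv' F (hsys F h)).choose else 0, fun F hF => ?_, ?_⟩
    · simp only [hF, dite_true]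
      exact ⟨(Pool.Agent.H559.PV.CF_conv' F (hsys F hF)).choose_spec.1,
        (Pool.Agent.H559.PV.CF_conv' F (hsys F hF)).choose_spec.2 hF.2.2⟩
    · intro z hz c hc Ω _ P a hmod
      have h : Pool.Agent.T2H32.BF.Model P a := ⟨hmod.measurable, hmod.independent, hmod.uniform⟩
      filter_upwards [Pool.Agent.H559.PV.ae_OK h z (Pool.Agent.H559.HY.WW c) hz (Pool.Agent.H559.HY.cut_WW c hc)]
        with ω hω
      have e : R z c a ω = Pool.Agent.H559.HY.RS z (Pool.Agent.H559.HY.WW c) (fun p => a p ω) := by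
        ext v
        simp only [R, Pool.Agent.H559.HY.RS, Set.mem_ofPred_eq]
        refine and_congr_right fun hv => ?_
        refine forall_congr' fun q => forall_congr' fun _ => forall_congr' fun _ => ?_
        have h0 : 0 ≤ Real.log v ^ c := Real.rpow_nonneg (Real.log_nonneg (by
          have : 1 ≤ v := by omega
          exact_mod_cast this)) c
        have h1 : (q : ℝ) ≤ Real.log v ^ c ↔ q ≤ Pool.Agent.H559.HY.WW c v := (Nat.le_floor_iff h0).symm
        by_cases h2 : (q : ℝ) ≤ Real.log v ^ c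
        · rw [if_pos h2, if_pos (h1.1 h2)]
        · rw [if_neg h2, if_neg (fun h3 => h2 (h1.2 h3))]
      rw [e]
      have hall : ∀ F, System F → SystemStatement
          (fun F => if h : System F then (Pool.Agent.H559.PV.CF_conv' F (hsys F h)).choose else 0)
          (Pool.Agent.H559.HY.RS z (Pool.Agent.H559.HY.WW c) (fun p => a p ω)) F := by
        intro F hF
        refine system_of _ F _ fun q hq => ?_
        simp only [hF, dite_true]
        exact Pool.Agent.H531.LO.data z hz c hc _ hω F (hGP F hF) hF.1 hF.2.2 _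
          (Pool.Agent.H559.PV.CF_conv' F (hsys F hF)).choose_spec.1
          ((Pool.Agent.H559.PV.CF_conv' F (hsys F hF)).choose_spec.2 hF.2.2) q hq
      exact ⟨twin_of _ (fun v hv => hv.1) _ (hall F2 F2_sys), hall⟩

end Pool.Agent.Results.MP_74f661_nt.ConsecutiveResiduesRandomSieve
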