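import Mathlib
import Pool.Agent.H482.DS.Monk
import Pool.Agent.H482.DS.Gsuk
import Pool.Agent.H482.DS.Abs

/-!
# Sets of twin prime pairs modulo all but boundedly many primes

For every `ε, δ > 0` there is `M` such that for all `x`, every set `A` of twin prime pairs up to `x`
is equidistributed modulo all primes `q ≤ x ^ (1 / 2 - δ)` with at most `M` exceptions, with an error
`ε x / (log x) ^ 2`, a small part of the expected number of all the pairs.  This holds in particular for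
the pairs which satisfy together with their successor any given condition, say that both are in given
residue classes modulo `4`.  The same is proved for all systems of linear forms, for prime and for
almost prime values.
-/

set_option autoImplicit false

namespace Pool.Agent.Results.MP_74f661_nt.SetsOfTwinPairsModuloPrimes

open Finset

/-- Every set `C` of residue classes modulo `q` contains its share of the elements of `A`, up to `E`. -/
def Spread (E : ℝ) (A : Finset ℕ) (q : ℕ) : Prop :=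
  ∀ C : Finset ℕ, C ⊆ range q →
    |((A.filter (fun n => n % q ∈ C)).card : ℝ) - (C.card : ℝ) / q * A.card| ≤ E

/-- `A` is spread up to `E` modulo all but at most `M` of the primes `q ≤ y`. -/
def SpreadBut (M : ℕ) (y E : ℝ) (A : Finset ℕ) : Prop :=
  ∃ S : Finset ℕ, S.card ≤ M ∧ ∀ q : ℕ, q.Prime → (q : ℝ) ≤ y → q ∉ S → Spread E A q

/-- `p` is the first member of a twin prime pair. -/
def TwinFirst (p : ℕ) : Prop := p.Prime ∧ (p + 2).Prime

/-- `p'` is the first member of the twin prime pair following the pair of `p`. -/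
def Follows (p p' : ℕ) : Prop :=
  TwinFirst p' ∧ p < p' ∧ ∀ m : ℕ, p < m → m < p' → ¬ TwinFirst m

open Classical in
/-- The first members `p ≤ x` of the twin prime pairs for which there is a following pair, with first
member `p'`, and `T p p'` holds. -/
noncomputable def pairs (x : ℕ) (T : ℕ → ℕ → Prop) : Finset ℕ :=
  (Icc 1 x).filter (fun p => TwinFirst p ∧ ∃ p', Follows p p' ∧ T p p')

open Pool.Agent.H482.DS in
theorem of_Ea (M x : ℕ) (δ E : ℝ) (A : Finset ℕ)
    (h : (Ea E A ⌊(x : ℝ) ^ (1 / 2 - δ)⌋₊).card ≤ M) :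
    SpreadBut M ((x : ℝ) ^ (1 / 2 - δ)) E A := by
  classical
  refine ⟨Ea E A ⌊(x : ℝ) ^ (1 / 2 - δ)⌋₊, h, fun q hq hqy hqS C hC => ?_⟩
  by_contra hcon
  push Not at hcon
  apply hqS
  unfold Ea
  rw [mem_filter, mem_Icc]
  exact ⟨⟨hq.one_le, Nat.le_floor hqy⟩, hq, C, hC, hcon⟩

/-- **Main theorem.** -/
theorem result :
    -- prime and almost prime values of `k` linear forms
    (∀ (k : ℕ) (a b : Fin k → ℕ), 1 ≤ k → (∀ i, 1 ≤ a i) →
      (∀ i j, i ≠ j → a i * b j ≠ a j * b i) →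
      ∀ θ ε δ : ℝ, 0 < θ → θ < 1 → 0 < ε → 0 < δ → ∃ M : ℕ, ∀ (x : ℕ) (A : Finset ℕ), 2 ≤ x →
        A ⊆ Icc 1 x →
        (∀ n ∈ A, ∀ i, (a i * n + b i).Prime ∨ ∀ p : ℕ, p.Prime → (p : ℝ) ≤ (x : ℝ) ^ θ →
          ¬ p ∣ a i * n + b i) →
        SpreadBut M ((x : ℝ) ^ (1 / 2 - δ)) (ε * (x / (Real.log x) ^ k)) A) ∧
    -- consecutive twin prime pairs
    (∀ ε δ : ℝ, 0 < ε → 0 < δ → ∃ M : ℕ, ∀ (x : ℕ) (T : ℕ → ℕ → Prop), 2 ≤ x →
      SpreadBut M ((x : ℝ) ^ (1 / 2 - δ)) (ε * (x / (Real.log x) ^ 2)) (pairs x T)) := by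
  classical
  have main : ∀ (k : ℕ) (a b : Fin k → ℕ), 1 ≤ k → (∀ i, 1 ≤ a i) →
      (∀ i j, i ≠ j → a i * b j ≠ a j * b i) →
      ∀ θ ε δ : ℝ, 0 < θ → θ < 1 → 0 < ε → 0 < δ → ∃ M : ℕ, ∀ (x : ℕ) (A : Finset ℕ), 2 ≤ x →
        A ⊆ Icc 1 x →
        (∀ n ∈ A, ∀ i, (a i * n + b i).Prime ∨ ∀ p : ℕ, p.Prime → (p : ℝ) ≤ (x : ℝ) ^ θ →
          ¬ p ∣ a i * n + b i) →
        SpreadBut M ((x : ℝ) ^ (1 / 2 - δ)) (ε * (x / (Real.log x) ^ k)) A := by
    intro k a b hk ha hab θ ε δ hθ hθ1 hε hδ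
    obtain ⟨M, h⟩ := Pool.Agent.H482.DS.forms_free Pool.Agent.H482.DS.monk
      Pool.Agent.H482.DS.gsuk k hk a b ha hab θ ε δ hθ hθ1 hε hδ
    refine ⟨M, fun x A hx hA hs => of_Ea M x δ _ A (h x hx A hA ?_)⟩
    intro n hn hnx i p hp hpx hdvd
    rcases hs n hn i with h1 | h1
    · have h2 := (Nat.prime_dvd_prime_iff_eq hp h1).1 hdvd
      have h3 : n ≤ p := by
        rw [h2]
        have := ha i
        nlinarith
      have h4 : (n : ℝ) ≤ p := by exact_mod_cast h3
      linarith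
    · exact h1 p hp hpx hdvd
  refine ⟨main, ?_⟩
  intro ε δ hε hδ
  obtain ⟨M, h⟩ := main 2 ![1, 1] ![0, 2] (by norm_num) (by
      intro i
      fin_cases i <;> simp) (by
      intro i j hij
      fin_cases i <;> fin_cases j <;> simp_all) (1 / 2) ε δ (by norm_num) (by norm_num) hε hδ
  refine ⟨M, fun x T hx => h x _ hx ?_ ?_⟩
  · exact filter_subset _ _
  · intro n hn i
    unfold pairs at hn
    rw [mem_filter] at hn
    obtain ⟨-, ⟨h1, h2⟩, -⟩ := hn
    left
    fin_cases i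
    · simpa using h1
    · simpa using h2

end Pool.Agent.Results.MP_74f661_nt.SetsOfTwinPairsModuloPrimes
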